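import Pool.Agent.H89.TRI.Lib

/-! Module CMP of block B of project TRI. -/

open MeasureTheory Set Filter Topology MvPolynomial InnerProductSpace
open scoped Real ContDiff Laplacian

namespace Pool.TRI

private lemma cmp_contDiff (h4 : DKEStmt) {T : Set ℂ} (B : Bary T) (F : MP) : ContDiff ℝ ∞ (B.ev F) := by
  have h1 : ContDiff ℝ ∞ (fun z : ℂ => fun k : Fin 3 => B.x k z) := by
    rw [contDiff_pi]
    intro k
    unfold Bary.x
    have : ContDiff ℝ ∞ fun z : ℂ => (z * (starRingEnd ℂ) (B.g k)) := by fun_prop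
    exact (Complex.reCLM.contDiff.comp this).add contDiff_const
  exact (h4 F).1.comp h1

private lemma cmp_lap (h2 : A.LapBStmt) (h4 : DKEStmt) {T : Set ℂ} (B : Bary T) (F : MP) (z : ℂ) :
    (Δ (B.ev F)) z = ∑ k, B.c k * B.ev (Dk k (Dk k F)) z := by
  have h := h2 T B (fun x => evx x F) ((h4 F).1.of_le (WithTop.coe_le_coe.2 le_top)) z
  have e : ∀ k, A.DD k (A.DD k fun y => evx y F) = fun x => evx x (Dk k (Dk k F)) := by
    intro k
    have e1 : (A.DD k fun y => evx y F) = fun x => evx x (Dk k F) := by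
      funext x; exact (h4 F).2 k x
    rw [e1]
    funext x
    exact (h4 (Dk k F)).2 k x
  simp only [e] at h
  exact h

theorem cmp (h1 : A.MaxPStmt) (h2 : A.LapBStmt) (h3 : BASStmt) (h4 : DKEStmt) : CMPStmt := by
  intro T B u hu F s
  obtain ⟨hopen, hbd, _, _, _, _, hcl, hfr, _⟩ := h3 T B
  have hF := cmp_contDiff h4 B F
  have hus : ∀ z ∈ T, ContDiffAt ℝ 2 u z := fun z hz => hu.smooth.contDiffAt (hopen.mem_nhds hz)
  have hF2 : ContDiff ℝ 2 (B.ev F) := hF.of_le (WithTop.coe_le_coe.2 le_top)
  have hsu : ∀ z ∈ T, (Δ fun z => s * u z) z = -(2 * s) := by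
    intro z hz
    have e : (fun z => s * u z) = s • u := by funext z; rfl
    rw [e, laplacian_smul s (hus z hz)]
    have := hu.pde z hz
    rw [smul_eq_mul]
    linarith [mul_comm s ((Δ u) z), congrArg (fun r => 2 * s * r) this]
  have hsu2 : ∀ z ∈ T, ContDiffAt ℝ 2 (fun z => s * u z) z := fun z hz => contDiffAt_const.mul (hus z hz)
  constructor
  · intro hpde hbd0 z hz
    have key := h1 T (fun z => s * u z - B.ev F z) hopen hbd
      ((continuousOn_const.mul hu.cont).sub hF.continuous.continuousOn)
      ((contDiffOn_const.mul hu.smooth).sub hF2.contDiffOn) ?_ ?_ z (subset_closure hz)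
    · linarith
    · intro z hz
      have e : (fun z => s * u z - B.ev F z) = (fun z => s * u z) - B.ev F := by funext z; rfl
      rw [e, (hsu2 z hz).laplacian_sub hF2.contDiffAt, hsu z hz, cmp_lap h2 h4]
      have := hpde z hz
      linarith
    · intro z hz
      have h0 := hu.bdry z hz
      obtain ⟨ha, hb⟩ := (hfr z).1 hz
      have := hbd0 z ha hb
      rw [h0]
      linarith
  · intro hpde hbd0 z hz
    have key := h1 T (fun z => B.ev F z - s * u z) hopen hbd
      (hF.continuous.continuousOn.sub (continuousOn_const.mul hu.cont))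
      (hF2.contDiffOn.sub (contDiffOn_const.mul hu.smooth)) ?_ ?_ z (subset_closure hz)
    · linarith
    · intro z hz
      have e : (fun z => B.ev F z - s * u z) = B.ev F - (fun z => s * u z) := by funext z; rfl
      rw [e, hF2.contDiffAt.laplacian_sub (hsu2 z hz), hsu z hz, cmp_lap h2 h4]
      have := hpde z hz
      linarith
    · intro z hz
      have h0 := hu.bdry z hz
      obtain ⟨ha, hb⟩ := (hfr z).1 hz
      have := hbd0 z ha hb
      rw [h0]
      linarith

end Pool.TRI
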