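import Pool.Agent.H69.TRI.StmtsP

/-! Module J of block A of project TRI. -/

open MeasureTheory Set Filter Topology InnerProductSpace Metric
open scoped Real ComplexConjugate ContDiff Laplacian

namespace Pool.TRI.A

private lemma j_conj2 (h1 : Geo1Stmt) : conj (om ^ 2) = om := by
  obtain ⟨h3, _, hc, _⟩ := h1
  rw [map_pow, hc]
  calc (om ^ 2) ^ 2 = om ^ 3 * om := by ring
    _ = om := by rw [h3, one_mul]

private lemma j_aff1 (h1 : Geo1Stmt) (β ζ : ℂ) : aff β (om * ζ) = om * aff (om * β) ζ := by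
  obtain ⟨h3, _, hc, _⟩ := h1
  unfold aff
  rw [map_mul, hc]
  ring

private lemma j_aff2 (h1 : Geo1Stmt) (β ζ : ℂ) : aff β (om ^ 2 * ζ) = om ^ 2 * aff (om ^ 2 * β) ζ := by
  have hc2 := j_conj2 h1
  obtain ⟨h3, _, hc, _⟩ := h1
  unfold aff
  rw [map_mul, hc2]
  have h4 : om ^ 4 = om := by
    calc om ^ 4 = om ^ 3 * om := by ring
      _ = om := by rw [h3, one_mul]
  linear_combination (- β * conj ζ) * h4

private lemma j_aff3 (h1 : Geo1Stmt) (β ζ : ℂ) : aff (om * β) (om ^ 2 * ζ) = om ^ 2 * aff β ζ := by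
  have hc2 := j_conj2 h1
  unfold aff
  rw [map_mul, hc2]
  ring

private lemma j_Sg (h1 : Geo1Stmt) (w : ℂ) : om * w ∈ Sg ↔ w ∈ Sg := by
  have hX := h1.2.2.2.2.2.1
  constructor
  · intro h k
    rw [← hX k w]
    exact h (k + 1)
  · intro h k
    have e2 : k = (k + 2) + 1 := by fin_cases k <;> rfl
    rw [e2, hX (k + 2) w]
    exact h (k + 2)

private lemma j_Sg2 (h1 : Geo1Stmt) (w : ℂ) : om ^ 2 * w ∈ Sg ↔ w ∈ Sg := by
  have : om ^ 2 * w = om * (om * w) := by ring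
  rw [this, j_Sg h1, j_Sg h1]

private def jH (β ζ : ℂ) : Prop := aff β ζ ∈ Sg ∧ aff (om * β) ζ ∈ Sg ∧ aff (om ^ 2 * β) ζ ∈ Sg

private def jC (β ζ : ℂ) : Prop :=
  (F0 (aff β ζ) + F0 (aff (om * β) ζ) + F0 (aff (om ^ 2 * β) ζ)
    + (β / (1 + ‖β‖ ^ 2 : ℝ) * f (aff β ζ)).re + (om * β / (1 + ‖β‖ ^ 2 : ℝ) * f (aff (om * β) ζ)).re
    + (om ^ 2 * β / (1 + ‖β‖ ^ 2 : ℝ) * f (aff (om ^ 2 * β) ζ)).re
    + ‖β‖ * (Bm (aff β ζ) + Bm (aff (om * β) ζ) + Bm (aff (om ^ 2 * β) ζ))) / 3 ≤ HH β ζ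

private lemma j_norm (h1 : Geo1Stmt) (β : ℂ) : ‖om * β‖ = ‖β‖ := by
  rw [norm_mul, h1.2.2.2.1, one_mul]

private lemma j_norm2 (h1 : Geo1Stmt) (β : ℂ) : ‖om ^ 2 * β‖ = ‖β‖ := by
  rw [norm_mul, norm_pow, h1.2.2.2.1, one_pow, one_mul]

private lemma j_om3 (h1 : Geo1Stmt) (β : ℂ) : om * (om ^ 2 * β) = β := by
  calc om * (om ^ 2 * β) = om ^ 3 * β := by ring
    _ = β := by rw [h1.1, one_mul]

private lemma j_om3' (h1 : Geo1Stmt) (β : ℂ) : om ^ 2 * (om * β) = β := by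
  calc om ^ 2 * (om * β) = om ^ 3 * β := by ring
    _ = β := by rw [h1.1, one_mul]

private lemma j_HH (β β' ζ : ℂ) (h : ‖β'‖ = ‖β‖) : HH β' ζ = HH β ζ := by
  unfold HH
  rw [h]

/-- rotation of `β` -/
private lemma j_rotH (h1 : Geo1Stmt) (β ζ : ℂ) (h : jH β ζ) : jH (om * β) ζ := by
  obtain ⟨a, b, c⟩ := h
  refine ⟨b, ?_, ?_⟩
  · have : om * (om * β) = om ^ 2 * β := by ring
    rw [this]; exact c
  · rw [j_om3' h1]; exact a

private lemma j_rotC (h1 : Geo1Stmt) (β ζ : ℂ) (h : jC (om * β) ζ) : jC β ζ := by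
  unfold jC at h ⊢
  have e1 : om * (om * β) = om ^ 2 * β := by ring
  rw [e1, j_om3' h1, j_norm h1, j_HH β (om * β) ζ (j_norm h1 β)] at h
  linarith

/-- simultaneous rotation -/
private lemma j_simH (h1 : Geo1Stmt) (β ζ : ℂ) (h : jH β ζ) : jH (om * β) (om ^ 2 * ζ) := by
  obtain ⟨a, b, c⟩ := h
  refine ⟨?_, ?_, ?_⟩
  · rw [j_aff3 h1]; exact (j_Sg2 h1 _).2 a
  · rw [j_aff3 h1]; exact (j_Sg2 h1 _).2 b
  · have : om ^ 2 * (om * β) = om * (om ^ 2 * β) := by ring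
    rw [this, j_aff3 h1]; exact (j_Sg2 h1 _).2 c

private lemma j_simC (h1 : Geo1Stmt) (h2 : Geo2Stmt) (β ζ : ℂ) (h : jC (om * β) (om ^ 2 * ζ)) : jC β ζ := by
  have hF : ∀ w, F0 (om ^ 2 * w) = F0 w := by
    intro w
    have hE := h1.2.2.2.2.2.2.2.2.1
    have : om ^ 2 * w = om * (om * w) := by ring
    unfold F0
    rw [this, hE, hE]
  have hf : ∀ w, f (om ^ 2 * w) = om ^ 2 * f w := by
    intro w
    have : om ^ 2 * w = om * (om * w) := by ring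
    rw [this, h2.1, h2.1]; ring
  have hB : ∀ w, Bm (om ^ 2 * w) = Bm w := by
    intro w
    have : om ^ 2 * w = om * (om * w) := by ring
    rw [this, h2.2.1, h2.2.1]
  have hHH : ∀ w, HH β (om ^ 2 * w) = HH β w := by
    intro w
    have : om ^ 2 * w = om * (om * w) := by ring
    rw [this, (h2.2.2.2 β _).2, (h2.2.2.2 β _).2]
  have hre : ∀ (b : ℂ) (c : ℂ) (y : ℂ), (om * b / c * (om ^ 2 * y)).re = (b / c * y).re := by
    intro b c y
    have : om * b / c * (om ^ 2 * y) = b / c * y := by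
      calc om * b / c * (om ^ 2 * y) = om ^ 3 * (b / c * y) := by ring
        _ = b / c * y := by rw [h1.1, one_mul]
    rw [this]
  unfold jC at h ⊢
  have e1 : om ^ 2 * (om * β) = om * (om ^ 2 * β) := by ring
  rw [e1, j_aff3 h1, j_aff3 h1, j_aff3 h1, hF, hF, hF, hf, hf, hf, hB, hB, hB, hre, hre, hre, j_norm h1,
    j_HH β (om * β) _ (j_norm h1 β), hHH] at h
  exact h

private lemma j_core (h1 : Geo1Stmt) (h2 : Geo2Stmt) (h3 : J0Stmt) (β ζ : ℂ) (hb : ‖β‖ ≤ sA) (hH : jH β ζ)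
    (k : Fin 3) (hk : X k (aff β ζ) = 0) : jC β ζ := by
  have hX := h1.2.2.2.2.2.1
  have hX2 : ∀ k w, X k (om ^ 2 * w) = X (k + 1) w := by
    intro k w
    have e : om ^ 2 * w = om * (om * w) := by ring
    have e2 : k = (k + 2) + 1 := by
      fin_cases k <;> rfl
    have e3 : k + 2 = (k + 1) + 1 := by
      fin_cases k <;> rfl
    rw [e]
    nth_rw 1 [e2]
    rw [hX (k + 2), e3, hX (k + 1)]
  have step0 : ∀ β ζ : ℂ, ‖β‖ ≤ sA → jH β ζ → X 0 (aff β ζ) = 0 → jC β ζ := by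
    intro β ζ hb hH hk
    exact h3 β ζ hb hH.1 hH.2.1 hH.2.2 hk
  have step1 : ∀ β ζ : ℂ, ‖β‖ ≤ sA → jH β ζ → X 1 (aff β ζ) = 0 → jC β ζ := by
    intro β ζ hb hH hk
    apply j_simC h1 h2
    apply step0 _ _ (by rw [j_norm h1]; exact hb) (j_simH h1 _ _ hH)
    rw [j_aff3 h1, hX2]
    exact hk
  have step2 : ∀ β ζ : ℂ, ‖β‖ ≤ sA → jH β ζ → X 2 (aff β ζ) = 0 → jC β ζ := by
    intro β ζ hb hH hk
    apply j_simC h1 h2
    apply step1 _ _ (by rw [j_norm h1]; exact hb) (j_simH h1 _ _ hH)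
    rw [j_aff3 h1, hX2]
    exact hk
  fin_cases k
  · exact step0 β ζ hb hH hk
  · exact step1 β ζ hb hH hk
  · exact step2 β ζ hb hH hk

theorem j (h1 : Geo1Stmt) (h2 : Geo2Stmt) (h3 : J0Stmt) : JStmt := by
  intro β ζ hb ha0 ha1 ha2 hk
  have hX := h1.2.2.2.2.2.1
  rw [j_aff1 h1] at ha1
  rw [j_aff2 h1] at ha2
  rw [j_Sg h1] at ha1
  rw [j_Sg2 h1] at ha2
  have hH : jH β ζ := ⟨ha0, ha1, ha2⟩
  have hX1 : ∀ k w, X k (om * w) = X (k + 2) w := by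
    intro k w
    have e2 : k = (k + 2) + 1 := by fin_cases k <;> rfl
    nth_rw 1 [e2]
    rw [hX (k + 2)]
  have hX2 : ∀ k w, X k (om ^ 2 * w) = X (k + 1) w := by
    intro k w
    have e : om ^ 2 * w = om * (om * w) := by ring
    have e3 : k + 2 + 2 = k + 1 := by fin_cases k <;> rfl
    rw [e, hX1, hX1, e3]
  have hC : jC β ζ := by
    obtain ⟨k, hk | hk | hk⟩ := hk
    · exact j_core h1 h2 h3 β ζ hb hH k hk
    · rw [j_aff1 h1, hX1] at hk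
      apply j_rotC h1
      exact j_core h1 h2 h3 _ _ (by rw [j_norm h1]; exact hb) (j_rotH h1 _ _ hH) _ hk
    · rw [j_aff2 h1, hX2] at hk
      apply j_rotC h1
      apply j_rotC h1
      have e : om * (om * β) = om ^ 2 * β := by ring
      rw [e]
      refine j_core h1 h2 h3 _ _ (by rw [j_norm2 h1]; exact hb) ?_ _ hk
      rw [← e]
      exact j_rotH h1 _ _ (j_rotH h1 _ _ hH)
  have hF1 : ∀ w, F0 (om * w) = F0 w := by
    intro w
    have hE := h1.2.2.2.2.2.2.2.2.1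
    unfold F0
    rw [hE]
  have hF2 : ∀ w, F0 (om ^ 2 * w) = F0 w := by
    intro w
    have : om ^ 2 * w = om * (om * w) := by ring
    rw [this, hF1, hF1]
  have hf2 : ∀ w, f (om ^ 2 * w) = om ^ 2 * f w := by
    intro w
    have : om ^ 2 * w = om * (om * w) := by ring
    rw [this, h2.1, h2.1]; ring
  have hB2 : ∀ w, Bm (om ^ 2 * w) = Bm w := by
    intro w
    have : om ^ 2 * w = om * (om * w) := by ring
    rw [this, h2.2.1, h2.2.1]
  have hp1 : pp β (om * aff (om * β) ζ) = F0 (aff (om * β) ζ)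
      + (om * β / (1 + ‖β‖ ^ 2 : ℝ) * f (aff (om * β) ζ)).re := by
    unfold pp
    rw [hF1, h2.1]
    congr 2
    ring
  have hp2 : pp β (om ^ 2 * aff (om ^ 2 * β) ζ) = F0 (aff (om ^ 2 * β) ζ)
      + (om ^ 2 * β / (1 + ‖β‖ ^ 2 : ℝ) * f (aff (om ^ 2 * β) ζ)).re := by
    unfold pp
    rw [hF2, hf2]
    congr 2
    ring
  have hp0 : pp β (aff β ζ) = F0 (aff β ζ) + (β / (1 + ‖β‖ ^ 2 : ℝ) * f (aff β ζ)).re := rfl
  rw [j_aff1 h1, j_aff2 h1, hp1, hp2, h2.2.1, hB2, hp0]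
  unfold jC at hC
  linarith

end Pool.TRI.A
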