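import Pool.Agent.H7.TRI.Stmts

/-! Row LEA of board tri. -/

set_option linter.unusedVariables false
set_option linter.unusedSectionVars false

open Finset

namespace Pool.TRI

theorem LEA_leaf {V : Type} [Fintype V] [DecidableEq V] (G : SimpleGraph V) (C : Finset V) :
    ∀ w ∈ Jp G C, ∃ u, u ∈ Lf G C ∧ C \ cn G u = {w} := by
  intro w hw
  rw [mem_Jp, mem_Jc] at hw
  obtain ⟨⟨hwC, -⟩, hw2, u, hu, hu1⟩ := hw
  have huC : u ∈ C := (mem_sdiff.1 hu).1
  have hwu : w ∈ C \ cn G u := (mem_sdiff_comm huC hwC).1 hu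
  have hpos : 0 < (C \ cn G u).card := card_pos.2 ⟨w, hwu⟩
  have h1 : df G C u = 1 := by
    unfold df at hu1 ⊢
    omega
  have hs : C \ cn G u = {w} := by
    obtain ⟨z, hz⟩ := card_eq_one.1 (show (C \ cn G u).card = 1 from h1)
    rw [hz, mem_singleton] at hwu
    rw [hz, hwu]
  refine ⟨u, ?_, hs⟩
  rw [mem_Lf]
  exact ⟨huC, h1, w, hwu, by omega⟩

theorem LEA_sum {V : Type} [Fintype V] [DecidableEq V] (G : SimpleGraph V) (C : Finset V)
    (f : V → ℤ) : ∑ w ∈ Jc G C, f w
      = ∑ w ∈ J2 G C, f w + ∑ w ∈ Jp G C, f w + ∑ w ∈ J3 G C, f w := by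
  classical
  have hu : Jc G C = (J2 G C ∪ Jp G C) ∪ J3 G C := by
    ext w
    rw [mem_union, mem_union, mem_J2, mem_Jp, mem_J3]
    constructor
    · intro h
      have h2 := (mem_Jc.1 h).2
      by_cases h3 : 3 ≤ df G C w
      · exact Or.inr ⟨h, h3⟩
      · left
        have h22 : df G C w = 2 := by omega
        by_cases h4 : ∀ u ∈ C \ cn G w, 2 ≤ df G C u
        · exact Or.inl ⟨h, h22, h4⟩
        · push Not at h4
          obtain ⟨u, hu, hu2⟩ := h4
          exact Or.inr ⟨h, h22, u, hu, by omega⟩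
    · rintro ((h | h) | h)
      · exact h.1
      · exact h.1
      · exact h.1
  have hd1 : Disjoint (J2 G C) (Jp G C) := by
    rw [disjoint_left]
    intro w h1 h2
    rw [mem_J2] at h1
    rw [mem_Jp] at h2
    obtain ⟨-, -, u, hu, hu1⟩ := h2
    have := h1.2.2 u hu
    omega
  have hd2 : Disjoint (J2 G C ∪ Jp G C) (J3 G C) := by
    rw [disjoint_left]
    intro w h1 h2
    rw [mem_union, mem_J2, mem_Jp] at h1
    rw [mem_J3] at h2
    rcases h1 with h1 | h1
    · omega
    · omega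
  rw [hu, sum_union hd2, sum_union hd1]

theorem LEA_thm : LEAStmt := by
  intro V _ _ G C
  classical
  refine ⟨?_, LEA_sum G C, ?_⟩
  · choose! g hg using LEA_leaf G C
    apply card_le_card_of_injOn g
    · intro w hw
      exact mem_coe.2 (hg w (mem_coe.1 hw)).1
    · intro w hw w' hw' h
      have h1 := (hg w (mem_coe.1 hw)).2
      have h2 := (hg w' (mem_coe.1 hw')).2
      rw [h, h2] at h1
      exact (singleton_injective h1).symm
  · have h := LEA_sum G C (fun _ => 1)
    simp only [sum_const, nsmul_eq_mul, mul_one] at h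
    exact_mod_cast h

end Pool.TRI
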