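import Pool.Agent.H69.TRI.StmtsP

/-! Module NEARL of block A of project TRI. -/

open MeasureTheory Set Filter Topology InnerProductSpace Metric
open scoped Real ComplexConjugate ContDiff Laplacian

namespace Pool.TRI.A

private lemma nearl_DD_smooth {F : (Fin 3 → ℝ) → ℝ} (hF : ContDiff ℝ ∞ F) (k : Fin 3) : ContDiff ℝ ∞ (DD k F) := by
  unfold DD
  have h : ContDiff ℝ ∞ (fderiv ℝ F) := hF.fderiv_right (by norm_num)
  exact h.clm_apply contDiff_const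

private lemma nearl_DD_sub {F G : (Fin 3 → ℝ) → ℝ} (hF : ContDiff ℝ ∞ F) (hG : ContDiff ℝ ∞ G) (k : Fin 3)
    (x : Fin 3 → ℝ) : DD k (fun y => F y - G y) x = DD k F x - DD k G x := by
  unfold DD
  have e : fderiv ℝ (fun y => F y - G y) x = fderiv ℝ F x - fderiv ℝ G x :=
    fderiv_sub (hF.differentiable (by simp) x) (hG.differentiable (by simp) x)
  rw [e]
  simp

private lemma nearl_KI_nonneg (G : (Fin 3 → ℝ) → ℝ) : 0 ≤ KI (fun x => G x ^ 2) := by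
  unfold KI
  apply intervalIntegral.integral_nonneg (by norm_num)
  intro s hs
  apply intervalIntegral.integral_nonneg (by linarith [hs.2])
  intro t _
  positivity

private lemma nearl_c_sum {T : Set ℂ} (B : Bary T) : 0 < B.c 0 + B.c 1 + B.c 2 := by
  have h : B.c 0 + B.c 1 + B.c 2 = (‖B.g 0‖ ^ 2 + ‖B.g 1‖ ^ 2 + ‖B.g 2‖ ^ 2) / 2 := by
    have hs := B.sum_g
    have h2 : B.g 2 = -(B.g 0 + B.g 1) := by linear_combination hs
    unfold Bary.c
    have e1 : (0 : Fin 3) + 1 = 1 := rfl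
    have e2 : (0 : Fin 3) + 2 = 2 := rfl
    have e3 : (1 : Fin 3) + 1 = 2 := rfl
    have e4 : (1 : Fin 3) + 2 = 0 := rfl
    have e5 : (2 : Fin 3) + 1 = 0 := rfl
    have e6 : (2 : Fin 3) + 2 = 1 := rfl
    rw [e1, e2, e3, e4, e5, e6, h2, ← Complex.normSq_eq_norm_sq, ← Complex.normSq_eq_norm_sq,
      ← Complex.normSq_eq_norm_sq]
    simp only [Complex.normSq_apply, Complex.mul_re, Complex.conj_re, Complex.conj_im, Complex.neg_re,
      Complex.neg_im, Complex.add_re, Complex.add_im, map_neg, map_add]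
    ring
  rw [h]
  have h0 : B.g 0 ≠ 0 := by
    intro h0
    apply B.indep
    rw [h0]; simp
  have : 0 < ‖B.g 0‖ ^ 2 := by positivity
  positivity

private lemma nearl_main (h1 : RayKStmt) (h2 : IbpStmt) (h3 : PhiStmt) (h4 : Psi1Stmt) (h6 : QFStmt)
    {T : Set ℂ} (B : Bary T) (σ : ℝ) (hσ : 0 < σ) (δ : Fin 3 → ℝ) (hc : ∀ k, B.c k = σ * (1 + δ k))
    (hδ : δ 0 + δ 1 + δ 2 = 0) (K : ℝ) (hK : ∀ k, δ k ≤ K) :
    lambda1 T * (3 / 4 + 3 / 2 * (15166161 / 1121120000) * ∑ m, δ m ^ 2) ≤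
      σ * (6 * π ^ 2 + 12 * π ^ 2 * KI (fun x => psi0 x * Real.sin (2 * π * x 0)) * ∑ m, δ m ^ 2
        + (1 + K) * (3 / 2 * (297947781 / 112112000) * ∑ m, δ m ^ 2)) := by
  obtain ⟨pS, pV, pD, _, pI, pG⟩ := h3
  obtain ⟨q1, q2, q3, q4⟩ := h6 δ hδ
  set E : ℝ := ∑ m, δ m ^ 2 with hE
  set A : ℝ := KI (fun x => psi0 x * Real.sin (2 * π * x 0)) with hA
  obtain ⟨ψ, hψ⟩ : ∃ ψ : (Fin 3 → ℝ) → ℝ, ψ = fun y => ∑ m, δ m * psi m y := ⟨_, rfl⟩
  have hψs : ContDiff ℝ ∞ ψ := by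
    rw [hψ]
    apply ContDiff.sum
    intro m _
    exact contDiff_const.mul (h4.1 m)
  have hψv : VB ψ := by
    intro x hx hk
    rw [hψ]
    apply Finset.sum_eq_zero
    intro m _
    rw [h4.2.1 m x hx hk, mul_zero]
  have hψ1 : KI (fun x => ψ x ^ 2) = 3 / 2 * (15166161 / 1121120000) * E := by rw [hψ]; exact q1
  have hψ2 : ∑ k, KI (fun x => DD k ψ x ^ 2) = 3 / 2 * (297947781 / 112112000) * E := by rw [hψ]; exact q2
  have hψ3 : KI (fun x => phi0 x * ψ x) = 0 := by rw [hψ]; exact q3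
  have hψ4 : ∑ k, δ k * KI (fun x => ψ x * Real.sin (2 * π * x k)) = 3 / 2 * A * E := by rw [hψ]; exact q4
  have cψ : Continuous ψ := hψs.continuous
  have cφ : Continuous phi0 := pS.continuous
  have cD : ∀ {F : (Fin 3 → ℝ) → ℝ}, ContDiff ℝ ∞ F → ∀ k, Continuous (DD k F) :=
    fun hF k => (nearl_DD_smooth hF k).continuous
  -- the trial function
  have hFs : ContDiff ℝ ∞ (fun x => phi0 x - ψ x) := pS.sub hψs
  have hFv : VB (fun x => phi0 x - ψ x) := by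
    intro x hx hk
    simp only [pV x hx hk, hψv x hx hk, sub_zero]
  have hN : KI (fun x => (phi0 x - ψ x) ^ 2) = 3 / 4 + 3 / 2 * (15166161 / 1121120000) * E := by
    have e : (fun x : Fin 3 → ℝ => (phi0 x - ψ x) ^ 2) =
        fun x => (phi0 x ^ 2 + (-2) * (phi0 x * ψ x)) + ψ x ^ 2 := by funext x; ring
    rw [e, KI_add (by fun_prop) (by fun_prop), KI_add (by fun_prop) (by fun_prop), KI_smul, pI, hψ3, hψ1]
    ring
  have hE0 : 0 ≤ E := Finset.sum_nonneg fun m _ => sq_nonneg _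
  have hNpos : 0 < KI (fun x => (phi0 x - ψ x) ^ 2) := by rw [hN]; positivity
  have hR := h1 T B _ hFs hFv hNpos
  rw [hN] at hR
  refine hR.trans ?_
  -- the integrals of the squares of the derivatives
  obtain ⟨S, hS⟩ : ∃ S : Fin 3 → ℝ, S = fun k => KI (fun x => ψ x * Real.sin (2 * π * x k)) := ⟨_, rfl⟩
  have hSk : ∀ k, KI (fun x => ψ x * Real.sin (2 * π * x k)) = S k := by intro k; rw [hS]
  have hSsum : S 0 + S 1 + S 2 = 0 := by
    rw [← hSk 0, ← hSk 1, ← hSk 2, ← hψ3, ← KI_add (by fun_prop) (by fun_prop), ← KI_add (by fun_prop) (by fun_prop)]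
    congr 1
    funext x
    unfold phi0
    ring
  have hD : ∀ k, KI (fun x => DD k (fun x => phi0 x - ψ x) x ^ 2) =
      2 * π ^ 2 + 8 * π ^ 2 * S k + KI (fun x => DD k ψ x ^ 2) := by
    intro k
    have c1 := cD pS k
    have c2 := cD hψs k
    have e : (fun x : Fin 3 → ℝ => DD k (fun x => phi0 x - ψ x) x ^ 2) =
        fun x => (DD k phi0 x ^ 2 + (-2) * (DD k phi0 x * DD k ψ x)) + DD k ψ x ^ 2 := by
      funext x
      rw [nearl_DD_sub pS hψs]; ring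
    have e2 : KI (fun x => DD k phi0 x * DD k ψ x) = - (4 * π ^ 2 * S k) := by
      rw [h2 k phi0 ψ pS hψs hψv]
      have e3 : (fun x : Fin 3 → ℝ => DD k (DD k phi0) x * ψ x) =
          fun x => (-(4 * π ^ 2)) * (phi0 x * ψ x) + (4 * π ^ 2) * (ψ x * Real.sin (2 * π * x k)) := by
        funext x
        rw [pD]; ring
      rw [e3, KI_add (by fun_prop) (by fun_prop), KI_smul, KI_smul, hψ3, hSk]
      ring
    rw [e, KI_add (by fun_prop) (by fun_prop), KI_add (by fun_prop) (by fun_prop), KI_smul, pG, e2]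
    ring
  have hP : ∀ k, 0 ≤ KI (fun x => DD k ψ x ^ 2) := fun k => nearl_KI_nonneg _
  simp only [Fin.sum_univ_three] at hψ2 hψ4 ⊢
  rw [hD, hD, hD, hc, hc, hc]
  rw [hSk, hSk, hSk] at hψ4
  have k0 := mul_nonneg (sub_nonneg.2 (hK 0)) (hP 0)
  have k1 := mul_nonneg (sub_nonneg.2 (hK 1)) (hP 1)
  have k2 := mul_nonneg (sub_nonneg.2 (hK 2)) (hP 2)
  have e : σ * (1 + δ 0) * (2 * π ^ 2 + 8 * π ^ 2 * S 0 + KI (fun x => DD 0 ψ x ^ 2))
      + σ * (1 + δ 1) * (2 * π ^ 2 + 8 * π ^ 2 * S 1 + KI (fun x => DD 1 ψ x ^ 2))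
      + σ * (1 + δ 2) * (2 * π ^ 2 + 8 * π ^ 2 * S 2 + KI (fun x => DD 2 ψ x ^ 2)) =
      σ * ((6 * π ^ 2 + 2 * π ^ 2 * (δ 0 + δ 1 + δ 2)) + 8 * π ^ 2 * (S 0 + S 1 + S 2)
        + 8 * π ^ 2 * (δ 0 * S 0 + δ 1 * S 1 + δ 2 * S 2)
        + ((1 + δ 0) * KI (fun x => DD 0 ψ x ^ 2) + (1 + δ 1) * KI (fun x => DD 1 ψ x ^ 2)
          + (1 + δ 2) * KI (fun x => DD 2 ψ x ^ 2))) := by ring
  rw [e, hδ, hSsum, hψ4]
  apply mul_le_mul_of_nonneg_left _ hσ.le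
  have e5 : (1 + K) * (3 / 2 * (297947781 / 112112000) * E) =
      (1 + K) * (KI (fun x => DD 0 ψ x ^ 2) + KI (fun x => DD 1 ψ x ^ 2) + KI (fun x => DD 2 ψ x ^ 2)) := by
    rw [hψ2]
  rw [e5]
  nlinarith

theorem nearl (h1 : RayKStmt) (h2 : IbpStmt) (h3 : PhiStmt) (h4 : Psi1Stmt) (h5 : Psi3Stmt) (h6 : QFStmt)
    (h7 : NumLStmt) : NearLStmt := by
  intro T B hc21 hc10 hc20
  have hsum := nearl_c_sum B
  obtain ⟨σ, hσ⟩ : ∃ σ : ℝ, σ = (B.c 0 + B.c 1 + B.c 2) / 3 := ⟨_, rfl⟩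
  have hσ0 : 0 < σ := by rw [hσ]; positivity
  obtain ⟨δ, hδ⟩ : ∃ δ : Fin 3 → ℝ, δ = fun k => B.c k / σ - 1 := ⟨_, rfl⟩
  have hc : ∀ k, B.c k = σ * (1 + δ k) := by
    intro k
    rw [hδ]
    field_simp
    ring
  have hδs : δ 0 + δ 1 + δ 2 = 0 := by
    have : σ * (δ 0 + δ 1 + δ 2) = 0 := by
      have e0 := hc 0
      have e1 := hc 1
      have e2 := hc 2
      have : B.c 0 + B.c 1 + B.c 2 = 3 * σ := by rw [hσ]; ring
      nlinarith
    rcases mul_eq_zero.1 this with h | h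
    · exact absurd h hσ0.ne'
    · exact h
  have o21 : δ 2 ≤ δ 1 := by
    rw [hc 2, hc 1] at hc21
    have := le_of_mul_le_mul_left hc21 hσ0
    linarith
  have o10 : δ 1 ≤ δ 0 := by
    rw [hc 1, hc 0] at hc10
    have := le_of_mul_le_mul_left hc10 hσ0
    linarith
  have o20 : (1 - 6 / 1000) * (1 + δ 0) ≤ 1 + δ 2 := by
    rw [hc 0, hc 2] at hc20
    have h : σ * ((1 - 6 / 1000) * (1 + δ 0)) ≤ σ * (1 + δ 2) := by linarith
    exact le_of_mul_le_mul_left h hσ0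
  have d0 : δ 0 ≤ 402 / 100000 := by linarith
  have d0' : 0 ≤ δ 0 := by linarith
  have d2 : -(61 / 10000) ≤ δ 2 := by linarith
  have d2' : δ 2 ≤ 0 := by linarith
  have hK : ∀ k, δ k ≤ 402 / 100000 := by
    intro k
    fin_cases k
    · exact d0
    · exact o10.trans d0
    · exact (o21.trans o10).trans d0
  obtain ⟨E, hE⟩ : ∃ E : ℝ, E = ∑ m, δ m ^ 2 := ⟨_, rfl⟩
  have hE0 : 0 ≤ E := by rw [hE]; exact Finset.sum_nonneg fun m _ => sq_nonneg _
  have hE1 : E ≤ 1 / 1000 := by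
    rw [hE, Fin.sum_univ_three]
    have h1 : δ 1 = -(δ 0 + δ 2) := by linarith
    rw [h1]
    nlinarith
  have he2 : e2 B = E := by
    rw [hE, Fin.sum_univ_three]
    unfold e2
    rw [← hσ, hc 0, hc 1, hc 2]
    field_simp
    ring
  have hm := nearl_main h1 h2 h3 h4 h6 B σ hσ0 δ hc hδs (402 / 100000) hK
  rw [← hE, h5] at hm
  rw [he2, ← hσ]
  have hp : 0 < π := Real.pi_pos
  have hp4 : π ^ 2 ≤ 10 := by
    have h1 := Real.pi_lt_d2
    have h2 : π ^ 2 ≤ (3.15 : ℝ) ^ 2 := by gcongr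
    norm_num at h2
    linarith
  unfold NumLStmt at h7
  obtain ⟨A, hA⟩ : ∃ A : ℝ, A = 36 / 25 / (2 * π) ^ 3 - 8559 / 5 / (2 * π) ^ 5 + 248832 / 5 / (2 * π) ^ 7 := ⟨_, rfl⟩
  rw [← hA] at hm h7
  have hN : 0 < 3 / 4 + 3 / 2 * (15166161 / 1121120000) * E := by positivity
  have hfin : 6 * π ^ 2 + 12 * π ^ 2 * A * E + (1 + 402 / 100000) * (3 / 2 * (297947781 / 112112000) * E) ≤
      (8 * π ^ 2 * (1 - 399 / 10000 * E)) * (3 / 4 + 3 / 2 * (15166161 / 1121120000) * E) := by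
    have t1 := mul_le_mul_of_nonneg_right h7 hE0
    have t2 : 399 / 10000 * (12 * π ^ 2 * (15166161 / 1121120000)) * E * E ≤ 1 / 1000 * E := by
      apply mul_le_mul_of_nonneg_right _ hE0
      have : π ^ 2 * E ≤ 10 * (1 / 1000) := mul_le_mul hp4 hE1 hE0 (by norm_num)
      nlinarith
    nlinarith
  have hfin2 := mul_le_mul_of_nonneg_left hfin hσ0.le
  have h8 : lambda1 T * (3 / 4 + 3 / 2 * (15166161 / 1121120000) * E) ≤
      (8 * π ^ 2 * σ * (1 - 399 / 10000 * E)) * (3 / 4 + 3 / 2 * (15166161 / 1121120000) * E) := by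
    refine hm.trans (hfin2.trans (le_of_eq ?_))
    ring
  exact le_of_mul_le_mul_right h8 hN

end Pool.TRI.A
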