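import Pool.Agent.H69.TRI.StmtsP

/-! Module NUML of block A of project TRI. -/

open MeasureTheory Set Filter Topology InnerProductSpace Metric
open scoped Real ComplexConjugate ContDiff Laplacian

namespace Pool.TRI.A

theorem numl : NumLStmt := by
  unfold NumLStmt
  have h1 : (3.141592 : ℝ) < π := Real.pi_gt_d6
  have h2 : π < (3.141593 : ℝ) := Real.pi_lt_d6
  obtain ⟨u, hu⟩ : ∃ u : ℝ, u = 1 / (2 * π) := ⟨_, rfl⟩
  have hp : (0 : ℝ) < π := Real.pi_pos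
  have hu0 : u * (2 * π) = 1 := by rw [hu]; field_simp
  have hupos : 0 < u := by rw [hu]; positivity
  have hub : u ≤ 0.159156 := by
    by_contra hcon
    push Not at hcon
    nlinarith
  have hlb : 0.159154 ≤ u := by
    by_contra hcon
    push Not at hcon
    nlinarith
  have e3 : 12 * π ^ 2 * (36 / 25 / (2 * π) ^ 3) = 108 / 25 * u := by
    rw [hu]; field_simp; ring
  have e5 : 12 * π ^ 2 * (8559 / 5 / (2 * π) ^ 5) = 25677 / 5 * u ^ 3 := by
    rw [hu]; field_simp; ring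
  have e7 : 12 * π ^ 2 * (248832 / 5 / (2 * π) ^ 7) = 746496 / 5 * u ^ 5 := by
    rw [hu]; field_simp; ring
  have e : 12 * π ^ 2 * (36 / 25 / (2 * π) ^ 3 - 8559 / 5 / (2 * π) ^ 5 + 248832 / 5 / (2 * π) ^ 7)
      = 108 / 25 * u - 25677 / 5 * u ^ 3 + 746496 / 5 * u ^ 5 := by
    rw [mul_add, mul_sub, e3, e5, e7]
  rw [e]
  have p2 : π ^ 2 ≤ (3.141593 : ℝ) ^ 2 := by gcongr
  have u3 : (0.159154 : ℝ) ^ 3 ≤ u ^ 3 := by gcongr
  have u5 : u ^ 5 ≤ (0.159156 : ℝ) ^ 5 := by gcongr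
  norm_num at p2 u3 u5 ⊢
  linarith

end Pool.TRI.A
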