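import Pool.Agent.H69.TRI.StmtsP

/-! Module PHI of block A of project TRI. -/

open MeasureTheory Set Filter Topology InnerProductSpace Metric
open scoped Real ComplexConjugate ContDiff Laplacian

namespace Pool.TRI.A

private lemma phi_KI_eval (F : (Fin 3 → ℝ) → ℝ) (P : ℝ → ℝ → ℝ) (Q : ℝ → ℝ) (hF : Continuous F)
    (hP : ∀ s t, HasDerivAt (P s) (F ![s, t, 1 - s - t]) t)
    (hPc : Continuous fun s => P s (1 - s) - P s 0)
    (hQ : ∀ s, HasDerivAt Q (P s (1 - s) - P s 0) s) : KI F = Q 1 - Q 0 := by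
  unfold KI
  have h1 : ∀ s : ℝ, (∫ t in (0 : ℝ)..(1 - s), F ![s, t, 1 - s - t]) = P s (1 - s) - P s 0 := by
    intro s
    refine intervalIntegral.integral_eq_sub_of_hasDerivAt (fun t _ => hP s t) ?_
    apply Continuous.intervalIntegrable
    exact hF.comp (by fun_prop)
  simp only [h1]
  exact intervalIntegral.integral_eq_sub_of_hasDerivAt (fun s _ => hQ s) (hPc.intervalIntegrable _ _)

private lemma phi_sin_one_sub (s : ℝ) : Real.sin (2 * π * (1 - s)) = - Real.sin (2 * π * s) := by
  rw [mul_sub, mul_one, Real.sin_two_pi_sub]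

private lemma phi_cos_one_sub (s : ℝ) : Real.cos (2 * π * (1 - s)) = Real.cos (2 * π * s) := by
  rw [mul_sub, mul_one, Real.cos_two_pi_sub]

private lemma phi_hsin (c s : ℝ) : HasDerivAt (fun t : ℝ => Real.sin (c * t)) (c * Real.cos (c * s)) s := by
  have h := ((hasDerivAt_id s).const_mul c).sin
  simp only [id, mul_one] at h
  rw [mul_comm c]
  exact h

private lemma phi_hcos (c s : ℝ) : HasDerivAt (fun t : ℝ => Real.cos (c * t)) (-(c * Real.sin (c * s))) s := by
  have h := ((hasDerivAt_id s).const_mul c).cos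
  simp only [id, mul_one] at h
  have e : -(c * Real.sin (c * s)) = -Real.sin (c * s) * c := by ring
  rw [e]
  exact h

private lemma phi_sin4 : Real.sin (4 * π * 1) = 0 := by
  have : (4 * π * 1 : ℝ) = (4 : ℕ) * π := by push_cast; ring
  rw [this, Real.sin_nat_mul_pi]

private lemma phi_cos4 : Real.cos (4 * π * 1) = 1 := by
  have : (4 * π * 1 : ℝ) = (2 : ℕ) * (2 * π) := by push_cast; ring
  rw [this, Real.cos_nat_mul_two_pi]

private lemma phi_base (ε : ℝ) : 
    ∀ s, HasDerivAt (fun s : ℝ => (s - s ^ 2 / 2) / 2 + ε * (((1 - s) * Real.sin (4 * π * s) / (4 * π)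
      - Real.cos (4 * π * s) / (16 * π ^ 2)) / 2)) ((1 - s) * ((1 + ε * Real.cos (4 * π * s)) / 2)) s := by
  intro s
  have hp : (0 : ℝ) < π := Real.pi_pos
  have h1 : HasDerivAt (fun s : ℝ => (s - s ^ 2 / 2) / 2) ((1 - (2 : ℕ) * s ^ (2 - 1) / 2) / 2) s :=
    ((hasDerivAt_id s).sub ((hasDerivAt_pow 2 s).div_const 2)).div_const 2
  have h2 : HasDerivAt (fun s : ℝ => (1 - s) * Real.sin (4 * π * s))
      ((-1) * Real.sin (4 * π * s) + (1 - s) * (4 * π * Real.cos (4 * π * s))) s :=
    ((hasDerivAt_id s).const_sub 1).mul (phi_hsin (4 * π) s)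
  have h3 := (((h2.div_const (4 * π)).sub ((phi_hcos (4 * π) s).div_const (16 * π ^ 2))).div_const 2).const_mul ε
  have h4 := h1.add h3
  refine h4.congr_deriv ?_
  push_cast
  field_simp
  ring

private lemma phi_sinsq : KI (fun x => Real.sin (2 * π * x 0) ^ 2) = 1 / 4 := by
  have hd : ∀ s : ℝ, Real.sin (2 * π * s) ^ 2 = (1 + (-1) * Real.cos (4 * π * s)) / 2 := by
    intro s
    have h1 : Real.cos (4 * π * s) = 1 - 2 * Real.sin (2 * π * s) ^ 2 := by
      have : 4 * π * s = 2 * (2 * π * s) := by ring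
      rw [this, Real.cos_two_mul]
      have := Real.sin_sq_add_cos_sq (2 * π * s)
      linarith
    rw [h1]; ring
  rw [phi_KI_eval (fun x => Real.sin (2 * π * x 0) ^ 2) (fun s t => Real.sin (2 * π * s) ^ 2 * t)
    (hF := by fun_prop) (hPc := by fun_prop) (Q := fun s : ℝ => (s - s ^ 2 / 2) / 2 + (-1) * (((1 - s) * Real.sin (4 * π * s) / (4 * π)
      - Real.cos (4 * π * s) / (16 * π ^ 2)) / 2)) (hP := ?_) (hQ := ?_)]
  · simp only [phi_sin4, phi_cos4, mul_zero, Real.sin_zero, Real.cos_zero]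
    norm_num
  · intro s t
    have h := (hasDerivAt_id t).const_mul (Real.sin (2 * π * s) ^ 2)
    simp only [mul_one] at h
    simpa using h
  · intro s
    refine (phi_base (-1) s).congr_deriv ?_
    rw [hd]; ring

private lemma phi_cossq : KI (fun x => Real.cos (2 * π * x 0) ^ 2) = 1 / 4 := by
  have hd : ∀ s : ℝ, Real.cos (2 * π * s) ^ 2 = (1 + 1 * Real.cos (4 * π * s)) / 2 := by
    intro s
    have h1 : Real.cos (4 * π * s) = 2 * Real.cos (2 * π * s) ^ 2 - 1 := by
      have : 4 * π * s = 2 * (2 * π * s) := by ring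
      rw [this, Real.cos_two_mul]
    rw [h1]; ring
  rw [phi_KI_eval (fun x => Real.cos (2 * π * x 0) ^ 2) (fun s t => Real.cos (2 * π * s) ^ 2 * t)
    (hF := by fun_prop) (hPc := by fun_prop) (Q := fun s : ℝ => (s - s ^ 2 / 2) / 2 + 1 * (((1 - s) * Real.sin (4 * π * s) / (4 * π)
      - Real.cos (4 * π * s) / (16 * π ^ 2)) / 2)) (hP := ?_) (hQ := ?_)]
  · simp only [phi_sin4, phi_cos4, mul_zero, Real.sin_zero, Real.cos_zero]
    norm_num
  · intro s t
    have h := (hasDerivAt_id t).const_mul (Real.cos (2 * π * s) ^ 2)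
    simp only [mul_one] at h
    simpa using h
  · intro s
    refine (phi_base 1 s).congr_deriv ?_
    rw [hd]; ring

private lemma phi_sinsin : KI (fun x => Real.sin (2 * π * x 0) * Real.sin (2 * π * x 1)) = 0 := by
  have hp : (0 : ℝ) < π := Real.pi_pos
  rw [phi_KI_eval (fun x => Real.sin (2 * π * x 0) * Real.sin (2 * π * x 1))
    (fun s t => Real.sin (2 * π * s) * (-(Real.cos (2 * π * t) / (2 * π))))
    (hF := by fun_prop) (hPc := by fun_prop) (Q := fun s : ℝ => -(Real.sin (2 * π * s) ^ 2 / (8 * π ^ 2))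
      - Real.cos (2 * π * s) / (4 * π ^ 2)) (hP := ?_) (hQ := ?_)]
  · simp
  · intro s t
    have h := (((phi_hcos (2 * π) t).div_const (2 * π)).neg).const_mul (Real.sin (2 * π * s))
    refine h.congr_deriv ?_
    simp only [Matrix.cons_val_zero, Matrix.cons_val_one]
    field_simp
  · intro s
    have h := (((phi_hsin (2 * π) s).pow 2).div_const (8 * π ^ 2)).neg.sub
      ((phi_hcos (2 * π) s).div_const (4 * π ^ 2))
    refine h.congr_deriv ?_
    rw [phi_cos_one_sub, mul_zero, Real.cos_zero]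
    push_cast
    field_simp
    ring

private lemma phi_coscos : KI (fun x => Real.cos (2 * π * x 0) * Real.cos (2 * π * x 1)) = 0 := by
  have hp : (0 : ℝ) < π := Real.pi_pos
  rw [phi_KI_eval (fun x => Real.cos (2 * π * x 0) * Real.cos (2 * π * x 1))
    (fun s t => Real.cos (2 * π * s) * (Real.sin (2 * π * t) / (2 * π)))
    (hF := by fun_prop) (hPc := by fun_prop) (Q := fun s : ℝ => -(Real.sin (2 * π * s) ^ 2 / (8 * π ^ 2))) (hP := ?_) (hQ := ?_)]
  · simp
  · intro s t
    have h := ((phi_hsin (2 * π) t).div_const (2 * π)).const_mul (Real.cos (2 * π * s))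
    refine h.congr_deriv ?_
    simp only [Matrix.cons_val_zero, Matrix.cons_val_one]
    field_simp
  · intro s
    have h := (((phi_hsin (2 * π) s).pow 2).div_const (8 * π ^ 2)).neg
    refine h.congr_deriv ?_
    rw [phi_sin_one_sub, mul_zero, Real.sin_zero]
    push_cast
    field_simp
    ring

/-- rotations of `KI` -/
private lemma phi_rot (h : PermStmt) (F : (Fin 3 → ℝ) → ℝ) (hF : Continuous F) (k : Fin 3) :
    KI (fun x => F (fun i => x (i + k))) = KI F := by
  have h1 : ∀ F : (Fin 3 → ℝ) → ℝ, Continuous F → KI (fun x => F (fun i => x (i + 1))) = KI F :=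
    fun F hF => (h F hF).1
  have hc : Continuous fun x : Fin 3 → ℝ => F (fun i => x (i + 1)) := by
    refine hF.comp ?_
    exact continuous_pi fun i => continuous_apply _
  fin_cases k
  · simp
  · exact h1 F hF
  · have e := h1 _ hc
    rw [h1 F hF] at e
    have e2 : (fun x : Fin 3 → ℝ => F (fun i => x (i + 1 + 1))) = fun x => F (fun i => x (i + 2)) := by
      funext x
      congr 1
      funext i
      congr 1
      fin_cases i <;> rfl
    rw [e2] at e
    exact e

private lemma phi_hasF (x : Fin 3 → ℝ) (i : Fin 3) : HasFDerivAt (fun x : Fin 3 → ℝ => Real.sin (2 * π * x i))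
    ((2 * π * Real.cos (2 * π * x i)) • (ContinuousLinearMap.proj i : (Fin 3 → ℝ) →L[ℝ] ℝ)) x := by
  have h0 : HasFDerivAt (fun x : Fin 3 → ℝ => x i) (ContinuousLinearMap.proj i : (Fin 3 → ℝ) →L[ℝ] ℝ) x :=
    hasFDerivAt_apply i x
  have h := (phi_hsin (2 * π) (x i)).comp_hasFDerivAt x h0
  exact h

private lemma phi_hasFc (x : Fin 3 → ℝ) (i : Fin 3) : HasFDerivAt (fun x : Fin 3 → ℝ => Real.cos (2 * π * x i))
    ((-(2 * π * Real.sin (2 * π * x i))) • (ContinuousLinearMap.proj i : (Fin 3 → ℝ) →L[ℝ] ℝ)) x := by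
  have h0 : HasFDerivAt (fun x : Fin 3 → ℝ => x i) (ContinuousLinearMap.proj i : (Fin 3 → ℝ) →L[ℝ] ℝ) x :=
    hasFDerivAt_apply i x
  have h := (phi_hcos (2 * π) (x i)).comp_hasFDerivAt x h0
  exact h

private lemma phi_DD (k : Fin 3) : DD k phi0 = fun x =>
    2 * π * (Real.cos (2 * π * x (k + 1)) - Real.cos (2 * π * x (k + 2))) := by
  funext x
  have h := ((phi_hasF x 0).add (phi_hasF x 1)).add (phi_hasF x 2)
  have h' : HasFDerivAt phi0 _ x := h
  unfold DD
  rw [h'.fderiv]
  fin_cases k <;> simp <;> ring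

private lemma phi_DDDD (k : Fin 3) (x : Fin 3 → ℝ) : DD k (DD k phi0) x =
    -(4 * π ^ 2) * (phi0 x - Real.sin (2 * π * x k)) := by
  rw [phi_DD]
  have h := ((phi_hasFc x (k + 1)).sub (phi_hasFc x (k + 2))).const_mul (2 * π)
  have h' : HasFDerivAt (fun x : Fin 3 → ℝ =>
    2 * π * (Real.cos (2 * π * x (k + 1)) - Real.cos (2 * π * x (k + 2)))) _ x := h
  unfold DD
  rw [h'.fderiv]
  unfold phi0
  fin_cases k <;> simp <;> ring

private lemma phi_prod (a b c : ℝ) (h : a + b + c = 1) :
    Real.sin (2 * π * a) + Real.sin (2 * π * b) + Real.sin (2 * π * c) =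
      4 * Real.sin (π * a) * Real.sin (π * b) * Real.sin (π * c) := by
  have hc : c = 1 - (a + b) := by linarith
  subst hc
  have e1 : π * (1 - (a + b)) = π - (π * a + π * b) := by ring
  have e2 : 2 * π * (1 - (a + b)) = 2 * π - 2 * (π * a + π * b) := by ring
  have e3 : 2 * π * a = 2 * (π * a) := by ring
  have e4 : 2 * π * b = 2 * (π * b) := by ring
  rw [e1, e2, e3, e4, Real.sin_pi_sub, Real.sin_two_pi_sub, Real.sin_two_mul, Real.sin_two_mul, Real.sin_two_mul,
    Real.sin_add, Real.cos_add]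
  have s1 := Real.sin_sq_add_cos_sq (π * a)
  have s2 := Real.sin_sq_add_cos_sq (π * b)
  set sa := Real.sin (π * a)
  set ca := Real.cos (π * a)
  set sb := Real.sin (π * b)
  set cb := Real.cos (π * b)
  have t1 : sa ^ 2 = 1 - ca ^ 2 := by linarith
  have t2 : sb ^ 2 = 1 - cb ^ 2 := by linarith
  linear_combination (-(2 * sb * cb)) * s1 - (2 * sa * ca) * s2

theorem phi (h : PermStmt) : PhiStmt := by
  refine ⟨?_, ?_, phi_DDDD, ?_, ?_, ?_⟩
  · unfold phi0
    fun_prop
  · intro x hx hk
    have h4 : phi0 x = 4 * Real.sin (π * x 0) * Real.sin (π * x 1) * Real.sin (π * x 2) := phi_prod _ _ _ hx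
    obtain ⟨k, hk⟩ := hk
    rw [h4]
    fin_cases k
    · have : x 0 = 0 := hk
      simp [this]
    · have : x 1 = 0 := hk
      simp [this]
    · have : x 2 = 0 := hk
      simp [this]
  · intro x hx
    exact phi_prod _ _ _ hx
  · -- the integral of phi0 ^ 2
    have e : (fun x : Fin 3 → ℝ => phi0 x ^ 2) = fun x =>
        ((Real.sin (2 * π * x 0) ^ 2 + Real.sin (2 * π * x 1) ^ 2) + Real.sin (2 * π * x 2) ^ 2)
        + 2 * ((Real.sin (2 * π * x 0) * Real.sin (2 * π * x 1) + Real.sin (2 * π * x 1) * Real.sin (2 * π * x 2))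
        + Real.sin (2 * π * x 2) * Real.sin (2 * π * x 0)) := by
      funext x; unfold phi0; ring
    have s0 := phi_sinsq
    have s1 : KI (fun x => Real.sin (2 * π * x 1) ^ 2) = 1 / 4 := by
      have := phi_rot h (fun x => Real.sin (2 * π * x 0) ^ 2) (by fun_prop) 1
      rw [s0] at this
      exact this
    have s2 : KI (fun x => Real.sin (2 * π * x 2) ^ 2) = 1 / 4 := by
      have := phi_rot h (fun x => Real.sin (2 * π * x 0) ^ 2) (by fun_prop) 2
      rw [s0] at this
      exact this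
    have t0 := phi_sinsin
    have t1 : KI (fun x => Real.sin (2 * π * x 1) * Real.sin (2 * π * x 2)) = 0 := by
      have := phi_rot h (fun x => Real.sin (2 * π * x 0) * Real.sin (2 * π * x 1)) (by fun_prop) 1
      rw [t0] at this
      exact this
    have t2 : KI (fun x => Real.sin (2 * π * x 2) * Real.sin (2 * π * x 0)) = 0 := by
      have := phi_rot h (fun x => Real.sin (2 * π * x 0) * Real.sin (2 * π * x 1)) (by fun_prop) 2
      rw [t0] at this
      exact this
    rw [e, KI_add (by fun_prop) (by fun_prop), KI_add (by fun_prop) (by fun_prop), KI_add (by fun_prop) (by fun_prop),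
      KI_smul, KI_add (by fun_prop) (by fun_prop), KI_add (by fun_prop) (by fun_prop), s0, s1, s2, t0, t1, t2]
    norm_num
  · intro k
    rw [phi_DD]
    have e : (fun x : Fin 3 → ℝ => (2 * π * (Real.cos (2 * π * x (k + 1)) - Real.cos (2 * π * x (k + 2)))) ^ 2) =
        fun x => (4 * π ^ 2) * ((Real.cos (2 * π * x (k + 1)) ^ 2 + Real.cos (2 * π * x (k + 2)) ^ 2)
          + (-2) * (Real.cos (2 * π * x (k + 1)) * Real.cos (2 * π * x (k + 2)))) := by
      funext x; ring
    have s0 := phi_cossq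
    have s1 : KI (fun x => Real.cos (2 * π * x (k + 1)) ^ 2) = 1 / 4 := by
      have := phi_rot h (fun x => Real.cos (2 * π * x 0) ^ 2) (by fun_prop) (k + 1)
      rw [s0] at this
      simpa using this
    have s2 : KI (fun x => Real.cos (2 * π * x (k + 2)) ^ 2) = 1 / 4 := by
      have := phi_rot h (fun x => Real.cos (2 * π * x 0) ^ 2) (by fun_prop) (k + 2)
      rw [s0] at this
      simpa using this
    have t1 : KI (fun x => Real.cos (2 * π * x (k + 1)) * Real.cos (2 * π * x (k + 2))) = 0 := by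
      have := phi_rot h (fun x => Real.cos (2 * π * x 0) * Real.cos (2 * π * x 1)) (by fun_prop) (k + 1)
      rw [phi_coscos] at this
      have e1 : (0 : Fin 3) + (k + 1) = k + 1 := by simp
      have e2 : (1 : Fin 3) + (k + 1) = k + 2 := by fin_cases k <;> rfl
      simp only [e1, e2] at this
      exact this
    rw [e, KI_smul, KI_add (by fun_prop) (by fun_prop), KI_add (by fun_prop) (by fun_prop), KI_smul, s1, s2, t1]
    ring

end Pool.TRI.A
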