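import Pool.Agent.H89.TRI.Lib

/-! Module RAYF of block B of project TRI. -/

open MeasureTheory Set Filter Topology MvPolynomial InnerProductSpace
open scoped Real ContDiff Laplacian

namespace Pool.TRI

theorem rayf (h1 : A.RayKStmt) (h2 : DKEStmt) (h3 : KIFStmt) (h4 : IBPStmt) (h5 : FPOSStmt) : RAYFStmt := by
  intro T B m ψ hψ hψ0
  have hX : (X 0 * X 1 * X 2 : MP).IsHomogeneous 3 :=
    ((isHomogeneous_X ℝ 0).mul (isHomogeneous_X ℝ 1)).mul (isHomogeneous_X ℝ 2)
  have hFh : (X 0 * X 1 * X 2 * ψ : MP).IsHomogeneous (m + 3) := by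
    have := hX.mul hψ
    rwa [add_comm 3 m] at this
  have hF0 : (X 0 * X 1 * X 2 * ψ : MP) ≠ 0 :=
    mul_ne_zero (mul_ne_zero (mul_ne_zero (X_ne_zero 0) (X_ne_zero 1)) (X_ne_zero 2)) hψ0
  have hibp := h4 ψ
  have hvb : A.VB (fun x => evx x (X 0 * X 1 * X 2 * ψ)) := by
    intro x _ hk
    have e : evx x (X 0 * X 1 * X 2 * ψ) = x 0 * x 1 * x 2 * evx x ψ := by
      unfold evx
      simp
    show evx x (X 0 * X 1 * X 2 * ψ) = 0
    rw [e]
    obtain ⟨k, hk⟩ := hk
    fin_cases k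
    · have : x 0 = 0 := hk
      simp [this]
    · have : x 1 = 0 := hk
      simp [this]
    · have : x 2 = 0 := hk
      simp [this]
  generalize hF : (X 0 * X 1 * X 2 * ψ : MP) = F at *
  obtain ⟨hp, hp0⟩ := h5 (m + 3) F hFh
  have hpos : 0 < facI (F ^ 2) := lt_of_le_of_ne hp (fun h => hF0 (hp0 h.symm))
  have hsq : ∀ (G : MP), (fun x : Fin 3 → ℝ => evx x G ^ 2) = fun x => evx x (G ^ 2) := by
    intro G; funext x; unfold evx; rw [map_pow]
  have hF2 : (F ^ 2).IsHomogeneous (2 * m + 6) := by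
    have := hFh.pow 2
    have e : (m + 3) * 2 = 2 * m + 6 := by ring
    rwa [e] at this
  have hK : A.KI (fun x => evx x F ^ 2) = facI (F ^ 2) / ((2 * m + 8).factorial : ℝ) := by
    rw [hsq, h3 (2 * m + 6) (F ^ 2) hF2]
  have hDh : ∀ k, (Dk k F).IsHomogeneous (m + 2) := by
    intro k
    unfold Dk
    exact hFh.pderiv.sub hFh.pderiv
  have hD : ∀ k, A.KI (fun x => A.DD k (fun y => evx y F) x ^ 2) =
      -facI (F * Dk k (Dk k F)) / ((2 * m + 6).factorial : ℝ) := by
    intro k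
    have e : (fun x => A.DD k (fun y => evx y F) x ^ 2) = fun x => evx x ((Dk k F) ^ 2) := by
      rw [← hsq]
      funext x
      rw [(h2 F).2 k x]
    have h4h : ((Dk k F) ^ 2).IsHomogeneous (2 * m + 4) := by
      have := (hDh k).pow 2
      have e : (m + 2) * 2 = 2 * m + 4 := by ring
      rwa [e] at this
    rw [e, h3 (2 * m + 4) _ h4h, hibp k]
  have hf8 : (0 : ℝ) < ((2 * m + 8).factorial : ℝ) := by exact_mod_cast Nat.factorial_pos _
  have hf6 : (0 : ℝ) < ((2 * m + 6).factorial : ℝ) := by exact_mod_cast Nat.factorial_pos _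
  have hf : ((2 * m + 8).factorial : ℝ) = (2 * m + 7) * (2 * m + 8) * ((2 * m + 6).factorial : ℝ) := by
    rw [Nat.factorial_succ (2 * m + 7), Nat.factorial_succ (2 * m + 6)]
    push_cast; ring
  have hR := h1 T B (fun x => evx x F) (h2 F).1 hvb (by rw [hK]; positivity)
  rw [hK] at hR
  simp only [hD] at hR
  have e1 : ∑ k, B.c k * (-facI (F * Dk k (Dk k F)) / ((2 * m + 6).factorial : ℝ)) =
      (-∑ k, B.c k * facI (F * Dk k (Dk k F))) / ((2 * m + 6).factorial : ℝ) := by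
    rw [← Finset.sum_neg_distrib, Finset.sum_div]
    apply Finset.sum_congr rfl
    intro k _
    ring
  rw [e1] at hR
  have h6 := mul_le_mul_of_nonneg_right hR hf8.le
  have e2 : lambda1 T * (facI (F ^ 2) / ((2 * m + 8).factorial : ℝ)) * ((2 * m + 8).factorial : ℝ) =
      lambda1 T * facI (F ^ 2) := by field_simp
  have e3 : (-∑ k, B.c k * facI (F * Dk k (Dk k F))) / ((2 * m + 6).factorial : ℝ) * ((2 * m + 8).factorial : ℝ) =
      (2 * m + 7) * (2 * m + 8) * (-∑ k, B.c k * facI (F * Dk k (Dk k F))) := by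
    rw [hf]; field_simp
  rw [e2, e3] at h6
  exact h6

end Pool.TRI
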