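import Pool.Agent.H89.TRI.Lib

/-! Module RESID of block B of project TRI. -/

open MeasureTheory Set Filter Topology MvPolynomial
open scoped Real ContDiff Laplacian

namespace Pool.TRI.K

/-- `Dk k` as a linear map -/
private noncomputable def residL (k : Fin 3) : MP →ₗ[ℝ] MP :=
  (pderiv (k + 1)).toLinearMap - (pderiv (k + 2)).toLinearMap

private lemma residL_apply (k : Fin 3) (F : MP) : residL k F = Dk k F := rfl

private lemma resid_core (h1 : ALGAStmt) (h2 : ALGMStmt) (h3 : ALGDStmt) (h4 : TABAStmt) (h5 : TABMStmt)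
    (h6 : TABTStmt) (a : ℕ) (q D : ℤ) (n : ℕ) (C1 C2 C3 O : Tab) (P : List (List Net))
    (hO : Rect (a + 3) 4 O) (hO1 : ∀ s s' t t' : ℝ, s + s' = 1 → t + t' = 1 → evT O s s' t t' = 1)
    (hC1 : Rect (a + 1) 2 C1) (hC2 : Rect (a + 1) 2 C2) (hC3 : Rect (a + 1) 2 C3) (hP : ShT (n + 3) 3 3 P) :
    ShT (n + 1) (a + 3) 4 (mapTN (smN (-1)) (addTN (addTN (addTN (mulTN C1 (mapTN (fun A => D1 (D1 A)) P))
      (mulTN C2 (mapTN (fun A => D2 (D2 A)) P))) (mulTN C3 (mapTN (fun A => D3 (D3 A)) P)))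
      (tabN (smT (Int.mul 2 (Int.mul (Int.mul q q) D)) O) (sig n)))) ∧
    ∀ s s' t t' : ℝ, s + s' = 1 → t + t' = 1 →
      toPT (mapTN (smN (-1)) (addTN (addTN (addTN (mulTN C1 (mapTN (fun A => D1 (D1 A)) P))
      (mulTN C2 (mapTN (fun A => D2 (D2 A)) P))) (mulTN C3 (mapTN (fun A => D3 (D3 A)) P)))
      (tabN (smT (Int.mul 2 (Int.mul (Int.mul q q) D)) O) (sig n)))) s s' t t' =
        -(evT C1 s s' t t' • Dk 0 (Dk 0 (toPT P s s' t t')) + evT C2 s s' t t' • Dk 1 (Dk 1 (toPT P s s' t t')) +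
          evT C3 s s' t t' • Dk 2 (Dk 2 (toPT P s s' t t'))) - (2 * (q : ℝ) ^ 2 * D) • (X 0 + X 1 + X 2) ^ n := by
  obtain ⟨hadd, hmap, htab⟩ := h4
  have m1 := hmap (n + 3) (n + 1) 3 3 (fun A => D1 (D1 A)) (residL 0 ∘ₗ residL 0) (fun P hP => by
    obtain ⟨x1, x2⟩ := (h3 (n + 2) P hP).1
    obtain ⟨y1, y2⟩ := (h3 (n + 1) (D1 P) x1).1
    refine ⟨y1, ?_⟩
    rw [y2, x2]; rfl) P hP
  have m2 := hmap (n + 3) (n + 1) 3 3 (fun A => D2 (D2 A)) (residL 1 ∘ₗ residL 1) (fun P hP => by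
    obtain ⟨x1, x2⟩ := (h3 (n + 2) P hP).2.1
    obtain ⟨y1, y2⟩ := (h3 (n + 1) (D2 P) x1).2.1
    refine ⟨y1, ?_⟩
    rw [y2, x2]; rfl) P hP
  have m3 := hmap (n + 3) (n + 1) 3 3 (fun A => D3 (D3 A)) (residL 2 ∘ₗ residL 2) (fun P hP => by
    obtain ⟨x1, x2⟩ := (h3 (n + 2) P hP).2.2
    obtain ⟨y1, y2⟩ := (h3 (n + 1) (D3 P) x1).2.2
    refine ⟨y1, ?_⟩
    rw [y2, x2]; rfl) P hP
  have p1 := h5.1 (n + 1) a 1 2 2 C1 _ hC1 m1.1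
  have p2 := h5.1 (n + 1) a 1 2 2 C2 _ hC2 m2.1
  have p3 := h5.1 (n + 1) a 1 2 2 C3 _ hC3 m3.1
  have e4 : 1 + 2 + 1 = 4 := rfl
  have e3 : a + 2 + 1 = a + 3 := rfl
  rw [e4, e3] at p1 p2 p3
  have hs := h2.2 n
  have hOs := h6.2.1 (a + 3) 4 (Int.mul 2 (Int.mul (Int.mul q q) D)) O hO
  have p4 := htab (n + 1) (a + 3) 4 _ _ hOs.1 hs.1
  have a1 := hadd (n + 1) (a + 3) 4 _ _ p1.1 p2.1
  have a2 := hadd (n + 1) (a + 3) 4 _ _ a1.1 p3.1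
  have a3 := hadd (n + 1) (a + 3) 4 _ _ a2.1 p4.1
  have f1 := hmap (n + 1) (n + 1) (a + 3) 4 (smN (-1)) ((-1 : ℝ) • LinearMap.id) (fun P hP => by
    obtain ⟨x1, x2⟩ := h1.2.2 (n + 1) (-1) P hP
    refine ⟨x1, ?_⟩
    rw [x2]; simp) _ a3.1
  refine ⟨f1.1, ?_⟩
  intro s s' t t' hss htt
  rw [f1.2, (a3.2.2 s s' t t').1, (a2.2.2 s s' t t').1, (a1.2.2 s s' t t').1, p1.2, p2.2, p3.2, p4.2, m1.2, m2.2, m3.2,
    (hOs.2.2 s s' t t').1, hO1 s s' t t' hss htt, hs.2]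
  have ec : ((Int.mul 2 (Int.mul (Int.mul q q) D) : ℤ) : ℝ) * 1 = 2 * (q : ℝ) ^ 2 * D := by
    have : Int.mul 2 (Int.mul (Int.mul q q) D) = 2 * (q * q * D) := rfl
    rw [this]; push_cast; ring
  rw [ec]
  simp only [LinearMap.smul_apply, LinearMap.id_apply, LinearMap.comp_apply, residL_apply, neg_smul, one_smul]
  abel

theorem resid_ (h1 : ALGAStmt) (h2 : ALGMStmt) (h3 : ALGDStmt) (h4 : TABAStmt) (h5 : TABMStmt) (h6 : TABTStmt) :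
    RESIDStmt := by
  intro typ q D n C1 C2 C3 P hC1 hC2 hC3 hP
  cases typ with
  | false =>
    have hO := h6.2.2 3 3
    exact resid_core h1 h2 h3 h4 h5 h6 1 q D n C1 C2 C3 (oneT 3 3) P hO.1
      (fun s s' t t' hs ht => by rw [hO.2, hs, ht]; norm_num) hC1 hC2 hC3 hP
  | true =>
    have hO := h6.2.2 4 3
    exact resid_core h1 h2 h3 h4 h5 h6 2 q D n C1 C2 C3 (oneT 4 3) P hO.1
      (fun s s' t t' hs ht => by rw [hO.2, hs, ht]; norm_num) hC1 hC2 hC3 hP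

end Pool.TRI.K
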