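import Pool.Agent.H89.TRI.Lib

/-! Module SUP of block B of project TRI. -/

open MeasureTheory Set Filter Topology MvPolynomial
open scoped Real ContDiff Laplacian

namespace Pool.TRI.K

private lemma sup_rec (a b : Bool) : Bool.rec (motive := fun _ => Bool) false b a = true ↔ a = true ∧ b = true := by
  cases a <;> cases b <;> simp

private lemma sup_evx_add (x : Fin 3 → ℝ) (F G : MP) : evx x (F + G) = evx x F + evx x G := by
  unfold evx; simp
private lemma sup_evx_sub (x : Fin 3 → ℝ) (F G : MP) : evx x (F - G) = evx x F - evx x G := by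
  unfold evx; simp
private lemma sup_evx_neg (x : Fin 3 → ℝ) (F : MP) : evx x (-F) = -evx x F := by
  unfold evx; simp
private lemma sup_evx_smul (x : Fin 3 → ℝ) (c : ℝ) (F : MP) : evx x (c • F) = c * evx x F := by
  unfold evx; simp
private lemma sup_evx_pow (x : Fin 3 → ℝ) (n : ℕ) : evx x ((X 0 + X 1 + X 2 : MP) ^ n) = (x 0 + x 1 + x 2) ^ n := by
  unfold evx; simp

/-- nonnegativity on the line `x 0 = 0` of a net from its first row -/
private lemma sup_row (n : ℕ) (P : Net) (hP : Sh (n + 1) P) (y z : ℝ)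
    (h : 0 ≤ evR (hd [] P) y z) : 0 ≤ evN P 0 y z := by
  obtain ⟨r, P', rfl, _, _⟩ := (Sh_succ n P).1 hP
  unfold evN
  rw [ter_cons, zero_smul, add_zero]
  exact h

private lemma sup_len (n : ℕ) (P : Net) (hP : Sh (n + 1) P) : (hd [] P).length = n + 1 := by
  obtain ⟨r, P', rfl, h, _⟩ := (Sh_succ n P).1 hP
  exact h

theorem sup (h1 : SHPStmt) (h2 : CHARTStmt) (h3 : RESIDStmt) (h4 : POSNStmt) (h5 : POSRStmt) (h6 : TABPStmt)
    (h7 : TRStmt) : SUPStmt := by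
  intro b hb hc2 hcB s s' t t' hs hs' ht ht' hss htt x hx hx1
  obtain ⟨hP, hpsi, hq, hD, hU, hV⟩ := (h1.2.2.2.1 b).1 hb
  have hq' : (0 : ℝ) < b.q := by exact_mod_cast hq
  obtain ⟨r1, r2, r3, hch⟩ := h2 b.typ b.q b.U0 b.U1 b.V0 b.V1 hq
  obtain ⟨e1, e2, e3⟩ := hch s s' t t' hss htt
  obtain ⟨hR, hRe⟩ := h3 b.typ b.q b.D b.n _ _ _ b.P r1 r2 r3 hP
  have hRe' := hRe s s' t t' hss htt
  constructor
  · have hpos : ∀ P ∈ flat (resid b.typ b.q b.D b.n (chB b).1 (chB b).2.1 (chB b).2.2 b.P), 0 ≤ evx x (toP P) := by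
      intro P hPm
      rw [evx_toP]
      refine h4 b.K2 b.w2 b.f2 b.n _ hc2 ?_ P hPm _ _ _ (hx 0) (hx 1) (hx 2)
      intro P' hP'
      obtain ⟨r, hr, hr'⟩ := (h6.2.2 _ _ _ _ hR P').1 hP'
      exact hR.2 r hr P' hr'
    have h0 := h6.1 _ _ _ _ hR s s' t t' hs hs' ht ht' x hpos
    rw [hRe', e1, e2, e3] at h0
    simp only [sup_evx_add, sup_evx_sub, sup_evx_neg, sup_evx_smul, sup_evx_pow, hx1, one_pow, mul_one] at h0
    rw [Fin.sum_univ_three]
    have hq2 : (0 : ℝ) < (b.q : ℝ) ^ 2 := by positivity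
    refine le_of_mul_le_mul_left ?_ hq2
    linarith
  · rintro ⟨k, hk⟩
    refine h6.1 _ _ _ _ hP s s' t t' hs hs' ht ht' x ?_
    intro P hPm
    have hsh : ∀ P ∈ flat b.P, Sh (b.n + 3) P := by
      intro P' hP'
      obtain ⟨r, hr, hr'⟩ := (h6.2.2 _ _ _ _ hP P').1 hP'
      exact hP.2 r hr P' hr'
    rw [evx_toP]
    unfold chkB at hcB
    rw [sup_rec, sup_rec] at hcB
    obtain ⟨c0, c1, c2⟩ := hcB
    rw [mp_eq] at c0 c1 c2
    have hPs := hsh P hPm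
    obtain ⟨hT1, hT2, hT⟩ := (h7 ℤ P).2 _ hPs
    have hT' := hT ℝ ℝ (fun a : ℤ => (a : ℝ))
    fin_cases k
    · have hk' : x 0 = 0 := hk
      rw [hk']
      apply sup_row (b.n + 2) P hPs
      refine h5 _ _ _ _ _ c0 ?_ _ (List.mem_map.2 ⟨P, hPm, rfl⟩) _ _ (hx 1) (hx 2)
      intro r hr
      obtain ⟨P', hP', rfl⟩ := List.mem_map.1 hr
      exact sup_len (b.n + 2) P' (hsh P' hP')
    · have hk' : x 1 = 0 := hk
      have e : evN P (x 0) (x 1) (x 2) = evN (tr P) (x 1) (x 0) (x 2) := (hT' _ _ _).1.symm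
      rw [e, hk']
      apply sup_row (b.n + 2) (tr P) hT1
      refine h5 _ _ _ _ _ c1 ?_ _ (List.mem_map.2 ⟨P, hPm, rfl⟩) _ _ (hx 0) (hx 2)
      intro r hr
      obtain ⟨P', hP', rfl⟩ := List.mem_map.1 hr
      exact sup_len (b.n + 2) (tr P') ((h7 ℤ P').2 _ (hsh P' hP')).1
    · have hk' : x 2 = 0 := hk
      have e : evN P (x 0) (x 1) (x 2) = evN (toE3 P) (x 2) (x 0) (x 1) := (hT' _ _ _).2.symm
      rw [e, hk']
      apply sup_row (b.n + 2) (toE3 P) hT2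
      refine h5 _ _ _ _ _ c2 ?_ _ (List.mem_map.2 ⟨P, hPm, rfl⟩) _ _ (hx 0) (hx 1)
      intro r hr
      obtain ⟨P', hP', rfl⟩ := List.mem_map.1 hr
      exact sup_len (b.n + 2) (toE3 P') ((h7 ℤ P').2 _ (hsh P' hP')).2.1

end Pool.TRI.K
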